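import Pool.Agent.PST.StmtsDR
import Pool.Agent.Helper91_PSS.THL

/-!
# Theorem (S+), block DR, row YCV
-/

open scoped BigOperators PowerSeries

noncomputable section

namespace Pool.Agent.PST.H51

open Pool.Agent.PFD.D2b (FrR)
open Pool.Agent.PSS
open Pool.Agent.PSS.S2 (Nh CV Cg RLq)

/-- the connection of an invariant function is bilinear for `V` -/
theorem nh_equiv {F V A Ω : Type} [Field F] [CommGroup V] [Ring A] [Algebra F A] [Fintype Ω]
    [MulAction (V × V) Ω] (α : V →* A) (b : Ω → A) (c : Ω → (A →ₗ[F] F)) (κ : Ω → F)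
    (hfr : FrR (bw F α) b c) (hκ : ∀ (p : V × V) ω, κ (p • ω) = κ ω) (g : V × V) (a : A) :
    Nh κ b c (bw F α g a) = bw F α g (Nh κ b c a) := by
  rw [Pool.Agent.PSS.S2.nh_apply, Pool.Agent.PSS.S2.nh_apply, map_sum]
  rw [← Equiv.sum_comp (MulAction.toPerm g)]
  refine Finset.sum_congr rfl fun ω _ => ?_
  rw [MulAction.toPerm_apply, hfr.2.1, hκ, hfr.1, map_smul]

theorem ycv : YcvStmt := by
  intro F V A K Ω _ _ _ _ _ _ _ _ α lam x y b c κ X hRF hfr hκ hX
  have hl : ∀ v a, Nh κ b c (α v * a) = α v * Nh κ b c a := by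
    intro v a
    have h := nh_equiv α b c κ hfr hκ (v, 1) a
    simpa [bw] using h
  have hr : ∀ v a, Nh κ b c (a * α v) = Nh κ b c a * α v := by
    intro v a
    have h := nh_equiv α b c κ hfr hκ (1, v⁻¹) a
    simpa [bw] using h
  have hf : RLq (0 : F) α ((LinearMap.mulRight F X).comp (Nh κ b c)) := by
    intro a v
    rw [Pool.Agent.PSS.S2.cg_zero, LinearMap.comp_apply, LinearMap.comp_apply,
      LinearMap.mulRight_apply, LinearMap.mulRight_apply, hr, mul_assoc, mul_assoc, hX v]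
  have key : ∀ v, (∑ k, Nh κ b c (x k) * (X * y k)) * α v =
      α v * ∑ k, Nh κ b c (x k) * (X * y k) := by
    intro v
    have h := Pool.Agent.PSS.S2.H91.thl F V A K (0 : F) α lam x y _ hRF hf (α v)
    rw [Pool.Agent.PSS.S2.cg_zero] at h
    simp only [LinearMap.comp_apply, LinearMap.mulRight_apply] at h
    have h1 : (∑ k, Nh κ b c (x k) * (X * y k)) = ∑ k, Nh κ b c (x k) * X * y k :=
      Finset.sum_congr rfl fun k _ => (mul_assoc _ _ _).symm
    rw [h1, ← h, Finset.mul_sum]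
    refine Finset.sum_congr rfl fun k _ => ?_
    rw [hl]
    simp only [mul_assoc]
  intro v _
  show bw F α (v, v) (∑ k, Nh κ b c (x k) * (X * y k)) = ∑ k, Nh κ b c (x k) * (X * y k)
  have h2 : bw F α (v, v) (∑ k, Nh κ b c (x k) * (X * y k)) =
      α v * ((∑ k, Nh κ b c (x k) * (X * y k)) * α v⁻¹) := rfl
  rw [h2, key v⁻¹, ← mul_assoc, ← map_mul, mul_inv_cancel, map_one, one_mul]

end Pool.Agent.PST.H51
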