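import Pool.Agent.PST.StmtsK4
import Pool.Agent.PST.Kyw

/-!
# Squad PST, block KEY, row KYD: the proof is in `Pool/Agent/PST/Kyw.lean`
-/

namespace Pool.Agent.PST.H51

theorem kyd : KydStmt := Pool.Agent.PST.kyw

end Pool.Agent.PST.H51
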