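import Pool.Agent.PST.StmtsK2

/-!
# Squad PST, block KEY, row RZL: a linear map from a pairing
-/

open scoped BigOperators

noncomputable section

namespace Pool.Agent.PST.H51

open Pool.Agent.PSS

theorem rzl : RzlStmt := by
  intro R F V Br KB M _ _ κ _ _ _ _ _ _ _ αB lamB xB yB g T hκ hRF hg hgs hT1 hT2 hT3 hT4 hT5 hT6
  classical
  -- `T m n` depends only on `g n`
  have hr : ∀ m n n', g n = g n' → T m n = T m n' := by
    intro m n n' h
    have h1 : T m n = T m (n' + (n - n')) := by
      congr 1
      abel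
    rw [h1, hT2, hT6 m (n - n') (by rw [map_sub, h, sub_self]), add_zero]
  have hl : ∀ m m' n, g m = g m' → T m n = T m' n := by
    intro m m' n h
    have h1 : T m n = T (m' + (m - m')) n := by
      congr 1
      abel
    rw [h1, hT1, hT5 (m - m') n (by rw [map_sub, h, sub_self]), add_zero]
  choose s hs using hg
  choose κi hκi using hκ
  have hT0 : ∀ n, T 0 n = 0 := fun n => hT5 0 n (map_zero g)
  have hsum : ∀ {ι : Type} (S : Finset ι) (f : ι → M) (n : M),
      T (∑ i ∈ S, f i) n = ∑ i ∈ S, T (f i) n := by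
    intro ι S f n
    induction S using Finset.induction_on with
    | empty => simp [hT0]
    | insert a S ha ih => rw [Finset.sum_insert ha, Finset.sum_insert ha, hT1, ih]
  let μ : KB → V → M := fun k v => s (xB k * αB v)
  let δ : Br →ₗ[F] Br :=
    { toFun := fun z => ∑ k, ∑ v, T (μ k v) (s z) • (αB v⁻¹ * yB k)
      map_add' := by
        intro z z'
        rw [← Finset.sum_add_distrib]
        refine Finset.sum_congr rfl fun k _ => ?_
        rw [← Finset.sum_add_distrib]
        refine Finset.sum_congr rfl fun v _ => ?_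
        rw [← add_smul, ← hT2]
        congr 1
        refine hr _ _ _ ?_
        rw [map_add, hs, hs, hs]
      map_smul' := by
        intro c z
        rw [RingHom.id_apply, Finset.smul_sum]
        refine Finset.sum_congr rfl fun k _ => ?_
        rw [Finset.smul_sum]
        refine Finset.sum_congr rfl fun v _ => ?_
        rw [smul_smul]
        congr 1
        rw [hr (μ k v) (s (c • z)) (κi c • s z) (by rw [hs, hgs, hs, hκi]), hT4, hκi] }
  refine ⟨δ, fun m n => ?_⟩
  have h1 : δ (g n) = ∑ k, ∑ v, T (μ k v) n • (αB v⁻¹ * yB k) := by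
    change ∑ k, ∑ v, T (μ k v) (s (g n)) • (αB v⁻¹ * yB k) = _
    refine Finset.sum_congr rfl fun k _ => Finset.sum_congr rfl fun v _ => ?_
    rw [hr (μ k v) (s (g n)) n (hs (g n))]
  have h2 : lamB (g m * δ (g n)) =
      ∑ k, ∑ v, lamB (αB v⁻¹ * yB k * g m) * T (μ k v) n := by
    rw [h1, Finset.mul_sum, map_sum]
    refine Finset.sum_congr rfl fun k _ => ?_
    rw [Finset.mul_sum, map_sum]
    refine Finset.sum_congr rfl fun v _ => ?_
    rw [mul_smul_comm, map_smul, smul_eq_mul, hRF.sym (g m), mul_comm]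
  rw [h2]
  have h3 : T m n = T (∑ k, ∑ v, κi (lamB (αB v⁻¹ * yB k * g m)) • μ k v) n := by
    refine hl _ _ _ ?_
    rw [map_sum]
    conv_lhs => rw [← hRF.e1 (g m)]
    refine Finset.sum_congr rfl fun k _ => ?_
    rw [map_sum]
    refine Finset.sum_congr rfl fun v _ => ?_
    rw [hgs, hκi]
    congr 1
    exact (hs _).symm
  rw [h3, hsum]
  refine Finset.sum_congr rfl fun k _ => ?_
  rw [hsum]
  refine Finset.sum_congr rfl fun v _ => ?_
  rw [hT3, hκi]

end Pool.Agent.PST.H51
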