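import Pool.Agent.PST.StmtsET2

/-!
# Squad PST, block ET, row TOR
-/

namespace Pool.Agent.PST.ET.H51

open Pool.Agent.PFD.D2 (Cdv)

theorem tor : TorStmt := by
  intro R F D _ _ c _ _ _
  set b := Module.Free.chooseBasis R D with hb
  have h0 : ∀ (n : ℕ) (r : R), c.π ^ n * r = 0 → r = 0 := by
    intro n
    induction n with
    | zero => intro r hr; simpa using hr
    | succ n ih =>
      intro r hr
      rw [pow_succ, mul_assoc] at hr
      exact c.reg _ (ih _ hr)
  refine ⟨?_, ?_⟩
  · intro n x hx
    apply b.repr.injective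
    ext i
    rw [map_zero, Finsupp.zero_apply]
    apply h0 n
    have h1 : b.repr (c.π ^ n • x) i = 0 := by rw [hx, map_zero, Finsupp.zero_apply]
    rw [map_smul, Finsupp.smul_apply, smul_eq_mul] at h1
    exact h1
  · intro x hx
    apply b.repr.injective
    ext i
    rw [map_zero, Finsupp.zero_apply]
    apply c.sep
    intro n
    obtain ⟨y, hy⟩ := hx n
    refine ⟨b.repr y i, ?_⟩
    rw [hy, map_smul, Finsupp.smul_apply, smul_eq_mul]

end Pool.Agent.PST.ET.H51
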